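import Pool.Agent.Run7.h709.SV.Cnt
import Pool.Agent.Run7.h709.OD.Main

/-!
# The sevenfold: deduction from the main theorem
-/

set_option autoImplicit false

namespace Run7.h709.SV

open Polynomial H594.OD H594.CY

open H809.OD hiding tt

/-- `R(u) = t (1 - 16t) (1 - 8t)`, `t = u (1 - 4u)`; `w^8 R(u)` is an odd form of weight `8` -/
noncomputable def R7 : ℤ[X] :=
  X * (1 - 4 * X) * (1 - 8 * X) ^ 2 * (1 - 8 * (X * (1 - 4 * X)))

lemma form7_eq (h : Theta) : w ^ (6 + 2) * aeval u R7 = w ^ 6 * (1 - 8 * tt) * th tt := by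
  rw [th_tt h, R7, tt]
  simp only [map_mul, map_sub, map_one, map_ofNat, aeval_X, map_pow]
  ring

/-- `(∑ binom(2k,k)² X^k)^6 (1 - 8 X)` -/
noncomputable def BS (p : ℕ) : ℤ[X] := (gZ (p * p)) ^ 6 * (1 - 8 * X)

lemma BS_dvd (p : ℕ) [hp : Fact p.Prime] (hp2 : p ≠ 2) (h0 : h7 p = 0) (m : ℕ) (hm : 1 ≤ m) :
    (p : ℤ) ∣ (BS p).coeff (p * m - 1) := by
  have hp3 : 3 ≤ p := by have := hp.out.two_le; omega
  have h1 := gM_six_zero p hp2 h0 1 le_rfl (by norm_num) m hm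
  have h2 := gM_six_zero p hp2 h0 2 (by norm_num) le_rfl m hm
  have hpm : 3 ≤ p * m := by nlinarith
  obtain ⟨j, hj⟩ : ∃ j, p * m - 1 = j + 1 := ⟨p * m - 2, by omega⟩
  have hj2 : p * m - 2 = j := by omega
  rw [hj] at h1 ⊢
  rw [hj2] at h2
  rw [← ZMod.intCast_zmod_eq_zero_iff_dvd]
  have h3 : (BS p).coeff (j + 1) = ((gZ (p * p)) ^ 6).coeff (j + 1) -
      8 * ((gZ (p * p)) ^ 6).coeff j := by
    rw [BS, show (gZ (p * p)) ^ 6 * (1 - 8 * X) = (gZ (p * p)) ^ 6 -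
      C 8 * ((gZ (p * p)) ^ 6 * X) by rw [show (C (8 : ℤ) : ℤ[X]) = 8 from rfl]; ring,
      coeff_sub, coeff_C_mul, coeff_mul_X]
  rw [h3]
  rw [← gZ_mod, ← Polynomial.map_pow, coeff_map] at h1 h2
  push_cast
  have h1' : (((gZ (p * p) ^ 6).coeff (j + 1) : ℤ) : ZMod p) = 0 := h1
  have h2' : (((gZ (p * p) ^ 6).coeff j : ℤ) : ZMod p) = 0 := h2
  rw [h1', h2']
  ring

lemma dvd_coeff7 (h : Theta) (p : ℕ) (hp : p.Prime) (hp2 : p ≠ 2)
    (h0 : (haveI := Fact.mk hp; h7 p) = 0) (a : ℕ → ℤ)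
    (ha : ∀ n, PowerSeries.coeff (R := ℚ) n (w ^ (6 + 2) * aeval u R7) = (a n : ℚ)) (n : ℕ)
    (hn : n < p ^ 2) (hpn : p ∣ n) : (p : ℤ) ∣ a n := by
  have : Fact p.Prime := ⟨hp⟩
  refine dvd_gen p hp tt ?_ (tt_int h) (BS p) ?_ _ ?_ a ha n hn hpn
  · exact Dvd.dvd.mul_right (X_dvd_u h) _
  · intro m hm
    exact BS_dvd p hp2 h0 m hm
  · have h3 : aeval tt ((BS p).map (Int.castRingHom ℚ)) =
        (evt (gQ (p * p))) ^ 6 * (1 - 8 * tt) := by
      have h4 : aeval tt (gQ (p * p)) = evt (gQ (p * p)) := by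
        rw [evt, ev1_apply, aeval_comp]
        congr 1
        rw [tt, tp]
        simp only [map_mul, map_sub, map_one, map_ofNat, aeval_X]
      rw [BS, Polynomial.map_mul, Polynomial.map_pow, gZ_map, map_mul, map_pow, h4]
      congr 1
      rw [show (1 - 8 * X : ℤ[X]) = 1 - C 8 * X from rfl, Polynomial.map_sub, Polynomial.map_mul,
        Polynomial.map_one, map_C, map_X, map_sub, map_mul, map_one, aeval_X, aeval_C]
      rfl
    rw [form7_eq h, h3, ← sub_mul, ← sub_mul]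
    refine Dvd.dvd.mul_right (Dvd.dvd.mul_right ?_ _) _
    have hpp : 0 < p * p := Nat.mul_pos hp.pos hp.pos
    obtain ⟨m, hm⟩ : ∃ m, p * p = m + 1 := ⟨p * p - 1, by omega⟩
    have h2 := w_approx h m
    rw [← hm] at h2
    exact dvd_trans h2 (sub_dvd_pow_sub_pow _ _ 6)

/-- the form is odd -/
lemma even_zero7 (h : Theta) (a : ℕ → ℤ)
    (ha : ∀ n, PowerSeries.coeff (R := ℚ) n (w ^ (6 + 2) * aeval u R7) = (a n : ℚ)) (n : ℕ)
    (hn : Even n) : a n = 0 := by
  have h1 : ng (w ^ (6 + 2) * aeval u R7) = -(w ^ (6 + 2) * aeval u R7) := by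
    rw [R7]
    simp only [map_mul, map_sub, map_one, map_ofNat, aeval_X, map_pow]
    rw [h.ng_w]
    have h2 := si_mul h
    have h3 : ng u = - u * si := by
      calc ng u = ng u * ((1 - 8 * u) * si) := by rw [h2, mul_one]
        _ = (ng u * (1 - 8 * u)) * si := by ring
        _ = - u * si := by rw [h.ng_u]
    have h4 : (1 - 8 * u) * (1 - 4 * ng u) = 1 - 4 * u := by
      rw [h3]; linear_combination (4 * u) * h2
    have h5 : (1 - 8 * u) * (1 - 8 * ng u) = 1 := by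
      rw [h3]; linear_combination (8 * u) * h2
    have h6 := h.ng_u
    have h7 : (1 - 8 * u) ^ 2 * (1 - 8 * (ng u * (1 - 4 * ng u))) =
        1 - 8 * (u * (1 - 4 * u)) := by
      calc (1 - 8 * u) ^ 2 * (1 - 8 * (ng u * (1 - 4 * ng u)))
          = (1 - 8 * u) ^ 2 - 8 * ((ng u * (1 - 8 * u)) * ((1 - 8 * u) * (1 - 4 * ng u))) := by
            ring
        _ = _ := by rw [h6, h4]; ring
    calc (w * (1 - 8 * u)) ^ (6 + 2) * (ng u * (1 - 4 * ng u) * (1 - 8 * ng u) ^ 2 *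
          (1 - 8 * (ng u * (1 - 4 * ng u))))
        = w ^ 8 * (1 - 8 * u) ^ 2 * (ng u * (1 - 8 * u)) * ((1 - 8 * u) * (1 - 4 * ng u)) *
            ((1 - 8 * u) * (1 - 8 * ng u)) ^ 2 *
            ((1 - 8 * u) ^ 2 * (1 - 8 * (ng u * (1 - 4 * ng u)))) := by ring
      _ = _ := by rw [h6, h4, h5, h7]; ring
  have h2 := congrArg (PowerSeries.coeff (R := ℚ) n) h1
  rw [ng, PowerSeries.coeff_rescale, map_neg, ha, hn.neg_one_pow, one_mul] at h2
  have h3 : (a n : ℚ) = 0 := by linarith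
  exact_mod_cast h3

lemma R7_ne_zero : R7 ≠ 0 := by
  intro h
  have h1 := congrArg (fun f : Polynomial ℤ => f.eval 1) h
  simp only [R7, Polynomial.eval_mul, Polynomial.eval_sub, Polynomial.eval_X, Polynomial.eval_one,
    Polynomial.eval_ofNat, Polynomial.eval_zero, Polynomial.eval_pow] at h1
  norm_num at h1

lemma R7_natDegree : R7.natDegree ≤ 6 + 2 := by
  unfold R7
  have : (Polynomial.X * (1 - 4 * Polynomial.X) * (1 - 8 * Polynomial.X) ^ 2 *
      (1 - 8 * (Polynomial.X * (1 - 4 * Polynomial.X))) :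
      Polynomial ℤ).natDegree ≤ 6 := by
    compute_degree
  omega

/-- the primes at which the eigenvalue is a unit -/
def OrdP (p : ℕ) : Prop := ∃ hp : p.Prime, (haveI := Fact.mk hp; h7 p) ≠ 0

open Classical in
theorem sv_log (h : Theta) (hm : S_Main) : LogDens OrdP := by
  have hint : w ^ (6 + 2) * Polynomial.aeval u R7 ∈ IntSer := by
    refine mul_mem (pow_mem h.w_int _) ?_
    rw [R7]
    simp only [map_mul, map_sub, map_one, map_ofNat, Polynomial.aeval_X, map_pow]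
    have h1 : u * (1 - 4 * u) ∈ IntSer :=
      mul_mem h.u_int (sub_mem (one_mem _) (mul_mem (ofNat_mem _ 4) h.u_int))
    exact mul_mem (mul_mem h1
      (pow_mem (sub_mem (one_mem _) (mul_mem (ofNat_mem _ 8) h.u_int)) 2))
      (sub_mem (one_mem _) (mul_mem (ofNat_mem _ 8) h1))
  obtain ⟨g, hg⟩ := hint
  have ha : ∀ n, PowerSeries.coeff n (w ^ (6 + 2) * Polynomial.aeval u R7) =
      ((PowerSeries.coeff n g : ℤ) : ℚ) := by
    intro n
    rw [← hg, PowerSeries.coeff_map]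
    rfl
  have key := hm 6 R7 (fun n => PowerSeries.coeff n g) OrdP (by norm_num) R7_ne_zero
    R7_natDegree ha (fun n hn => even_zero7 h _ ha n hn) ?_
  · obtain ⟨c, hc, x0, h⟩ := key
    refine ⟨c, hc, x0, fun x hx => (h x hx).trans (le_of_eq ?_)⟩
    exact Finset.sum_congr (by ext p; simp only [Finset.mem_filter]) fun _ _ => rfl
  · intro p hp hP n hn hpn
    rcases eq_or_ne p 2 with rfl | hp2
    · have : PowerSeries.coeff n g = 0 :=
        even_zero7 h (fun n => PowerSeries.coeff n g) ha n (even_iff_two_dvd.mpr hpn)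
      show ((2 : ℕ) : ℤ) ∣ PowerSeries.coeff n g
      rw [this]
      exact dvd_zero _
    · refine dvd_coeff7 h p hp hp2 ?_ _ ha n hn hpn
      by_contra h0
      exact hP ⟨hp, h0⟩

end Run7.h709.SV
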