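import Pool.Agent.Run7.h709.SV.Fin

/-!
# The sevenfold: the Hasse-Witt matrix and the final theorem
-/

set_option autoImplicit false

namespace Run7.h709.SV

open H594.CY

section Coeff

variable {R : Type*} [CommRing R]

/-- the coefficients of a product of polynomials in different variables -/
lemma coeff_prod {n : ℕ} (f : Polynomial R) (m : Fin n →₀ ℕ) :
    MvPolynomial.coeff m (∏ i : Fin n, Polynomial.eval₂ MvPolynomial.C (MvPolynomial.X i) f) =
      ∏ i : Fin n, f.coeff (m i) := by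
  classical
  obtain ⟨N, hN1, hN2⟩ : ∃ N, f.natDegree < N ∧ ∀ i, m i < N := by
    refine ⟨f.natDegree + (∑ i, m i) + 1, by omega, fun i => ?_⟩
    have := Finset.single_le_sum (f := fun i => m i) (fun _ _ => Nat.zero_le _)
      (Finset.mem_univ i)
    omega
  have h1 : ∀ i : Fin n, Polynomial.eval₂ MvPolynomial.C (MvPolynomial.X i) f =
      ∑ k ∈ Finset.range N, MvPolynomial.C (f.coeff k) * (MvPolynomial.X i : MvPolynomial (Fin n) R) ^ k :=
    fun i => Polynomial.eval₂_eq_sum_range' _ hN1 _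
  rw [Finset.prod_congr rfl fun i _ => h1 i, Finset.prod_univ_sum, MvPolynomial.coeff_sum]
  have h2 : ∀ q : Fin n → ℕ, (∏ i : Fin n, MvPolynomial.C (f.coeff (q i)) *
      (MvPolynomial.X i : MvPolynomial (Fin n) R) ^ (q i)) =
      MvPolynomial.monomial (Finsupp.equivFunOnFinite.symm q) (∏ i, f.coeff (q i)) := by
    intro q
    rw [Finset.prod_mul_distrib, MvPolynomial.monomial_eq, map_prod,
      Finsupp.prod_fintype _ _ (fun i => by simp)]
    rfl
  rw [Finset.sum_congr rfl fun q _ => by rw [h2 q]]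
  rw [Finset.sum_eq_single (fun i => m i)]
  · rw [MvPolynomial.coeff_monomial, if_pos]
    ext i
    rfl
  · intro q _ hq
    rw [MvPolynomial.coeff_monomial, if_neg]
    rintro rfl
    exact hq rfl
  · intro h
    exact absurd (Fintype.mem_piFinset.2 fun i => Finset.mem_range.2 (hN2 i)) h

end Coeff

/-- `d ∏ y_i (y_i - 1) (y_i - s)`, a polynomial in `y_1, …, y_6` over `𝔽_p[s]` -/
noncomputable def GG (p : ℕ) (d : ℤ) : MvPolynomial (Fin 6) (Polynomial (ZMod p)) :=
  (d : MvPolynomial (Fin 6) (Polynomial (ZMod p))) *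
    ∏ i : Fin 6, MvPolynomial.X i * (MvPolynomial.X i - 1) *
      (MvPolynomial.X i - MvPolynomial.C Polynomial.X)

/-- the Hasse-Witt matrix -/
noncomputable def HWm (p : ℕ) (d : ℤ) : Matrix (Fin 2) (Fin 2) (ZMod p) := fun i j =>
  (MvPolynomial.coeff (Finsupp.equivFunOnFinite.symm fun _ => p - 1)
    (GG p d ^ ((p - 1) / 2))).coeff (p * (j + 1) - (i + 1))

section Field

variable (p : ℕ) [hp : Fact p.Prime]

open Polynomial in
lemma coeff_f (hp2 : p ≠ 2) :
    (((X : (Polynomial (ZMod p))[X]) * (X - 1) * (X - C X)) ^ (p / 2)).coeff (p - 1) =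
      C ((-1) ^ (p / 2)) * HH p := by
  have hn := two_half p hp2
  have hp3 : 3 ≤ p := by have := hp.out.two_le; omega
  set n := p / 2 with hn'
  have h4 : (((X : (Polynomial (ZMod p))[X]) * (X - 1) * (X - C X)) ^ n).coeff (p - 1) =
      ((X - 1 : (Polynomial (ZMod p))[X]) ^ n * (X - C X) ^ n).coeff n := by
    rw [mul_assoc, mul_pow, mul_pow, coeff_X_pow_mul', if_pos (by omega)]
    congr 1
    omega
  rw [h4, coeff_mul, Finset.Nat.sum_antidiagonal_eq_sum_range_succ_mk, HH, Finset.mul_sum]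
  refine Finset.sum_congr rfl fun k hk => ?_
  rw [Finset.mem_range] at hk
  have e1 : (X - 1 : (Polynomial (ZMod p))[X]) = X + C (-1) := by rw [C_neg, C_1]; ring
  have e2 : (X - C X : (Polynomial (ZMod p))[X]) = X + C (-X) := by rw [C_neg]; ring
  rw [e1, e2, coeff_X_add_C_pow, coeff_X_add_C_pow, Nat.choose_symm (by omega : k ≤ n),
    show n - (n - k) = k by omega]
  have e3 : (-X : (ZMod p)[X]) ^ k = (-1) ^ k * X ^ k := by rw [← mul_pow]; ring
  have e4 : (-1 : (ZMod p)[X]) ^ (n - k) * (-1) ^ k = (-1) ^ n := by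
    rw [← pow_add]; congr 1; omega
  have e5 : (C ((-1 : ZMod p) ^ n) : (ZMod p)[X]) = (-1) ^ n := by
    rw [C_pow, C_neg, C_1]
  have e6 : (C ((Nat.choose n k : ZMod p) ^ 2) : (ZMod p)[X]) = (Nat.choose n k : (ZMod p)[X]) ^ 2 := by
    rw [C_pow, C_eq_natCast]
  rw [e3, e5, e6, ← e4]
  ring

lemma coeff_GG (hp2 : p ≠ 2) (d : ℤ) :
    MvPolynomial.coeff (Finsupp.equivFunOnFinite.symm fun _ => p - 1) (GG p d ^ ((p - 1) / 2)) =
      Polynomial.C ((d : ZMod p) ^ (p / 2)) * YS p := by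
  have hn := two_half p hp2
  have h0 : (p - 1) / 2 = p / 2 := by omega
  have h1 : GG p d ^ (p / 2) = MvPolynomial.C (Polynomial.C ((d : ZMod p) ^ (p / 2))) *
      ∏ i : Fin 6, Polynomial.eval₂ MvPolynomial.C (MvPolynomial.X i)
        (((Polynomial.X : Polynomial (Polynomial (ZMod p))) * (Polynomial.X - 1) *
          (Polynomial.X - Polynomial.C Polynomial.X)) ^ (p / 2)) := by
    have ha : (MvPolynomial.C (Polynomial.C ((d : ZMod p) ^ (p / 2))) :
        MvPolynomial (Fin 6) (Polynomial (ZMod p))) =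
        (d : MvPolynomial (Fin 6) (Polynomial (ZMod p))) ^ (p / 2) := by
      rw [map_pow, map_pow, map_intCast, map_intCast]
    have hb : ∀ i : Fin 6, Polynomial.eval₂ MvPolynomial.C (MvPolynomial.X i)
        (((Polynomial.X : Polynomial (Polynomial (ZMod p))) * (Polynomial.X - 1) *
          (Polynomial.X - Polynomial.C Polynomial.X)) ^ (p / 2)) =
        (MvPolynomial.X i * (MvPolynomial.X i - 1) *
          (MvPolynomial.X i - MvPolynomial.C Polynomial.X)) ^ (p / 2) := by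
      intro i
      rw [Polynomial.eval₂_pow, Polynomial.eval₂_mul, Polynomial.eval₂_mul, Polynomial.eval₂_sub,
        Polynomial.eval₂_sub, Polynomial.eval₂_X, Polynomial.eval₂_one, Polynomial.eval₂_C]
    rw [Finset.prod_congr rfl fun i _ => hb i, Finset.prod_pow, ha, ← mul_pow, GG]
  rw [h0, h1, MvPolynomial.coeff_C_mul, coeff_prod]
  congr 1
  have h2 : ∀ i : Fin 6, (((Polynomial.X : Polynomial (Polynomial (ZMod p))) * (Polynomial.X - 1) *
      (Polynomial.X - Polynomial.C Polynomial.X)) ^ (p / 2)).coeff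
        ((Finsupp.equivFunOnFinite.symm fun _ => p - 1 : Fin 6 →₀ ℕ) i) =
      Polynomial.C ((-1) ^ (p / 2)) * HH p := fun i => coeff_f p hp2
  rw [Finset.prod_congr rfl fun i _ => h2 i, Finset.prod_const, Finset.card_univ,
    Fintype.card_fin, mul_pow, ← Polynomial.C_pow, ← pow_mul, mul_comm (p / 2) 6, pow_mul, YS]
  norm_num

/-- the Hasse-Witt matrix is scalar -/
theorem HWm_eq (hp2 : p ≠ 2) (d : ℤ) :
    HWm p d = ((d : ZMod p) ^ (p / 2) * h7 p) • (1 : Matrix (Fin 2) (Fin 2) (ZMod p)) := by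
  have hp3 : 3 ≤ p := by have := hp.out.two_le; omega
  have h1 := YS_zero p hp2
  have h2 := YS_zero' p hp2
  have h3 := YS_one p hp2
  ext i j
  rw [HWm, coeff_GG p hp2, Polynomial.coeff_C_mul, Matrix.smul_apply, smul_eq_mul]
  fin_cases i <;> fin_cases j
  · simp [h7]
  · have e1 : p * (1 + 1) - (0 + 1) = 2 * p - 1 := by omega
    simp only [e1, h1]
    simp
  · have e1 : p * (0 + 1) - (1 + 1) = p - 2 := by omega
    simp only [e1, h2]
    simp
  · have e1 : p * (1 + 1) - (1 + 1) = 2 * (p - 1) := by omega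
    simp only [e1, h3]
    simp

end Field

lemma two_ne (p : ℕ) (hp : p.Prime) (d : ℤ) (hpd : ¬ (p : ℤ) ∣ 2 * d) :
    p ≠ 2 ∧ ¬ (p : ℤ) ∣ d := by
  refine ⟨?_, fun h => hpd (Dvd.dvd.mul_left h 2)⟩
  rintro rfl
  exact hpd (Dvd.intro d rfl)

/-- **The sevenfold**: for `p ∤ 2d` the Hasse-Witt matrix is a scalar matrix `a` with
`2 a = #` of the solutions modulo `p`, and it is invertible for a set of primes of positive lower
density. -/
theorem final (d : ℤ) (hd : d ≠ 0) :
    (∀ p : ℕ, p.Prime → ¬ (p : ℤ) ∣ 2 * d → ∃ a : ZMod p,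
      HWm p d = a • (1 : Matrix (Fin 2) (Fin 2) (ZMod p)) ∧
        (Nat.card (Sol7 p d) : ZMod p) = 2 * a) ∧
    0 < Filter.liminf (fun x : ℕ =>
      (Nat.card {p : ℕ // p ≤ x ∧ p.Prime ∧ IsUnit (HWm p d)} : ℝ) /
        Nat.card {p : ℕ // p ≤ x ∧ p.Prime}) Filter.atTop := by
  constructor
  · intro p hp hpd
    have : Fact p.Prime := ⟨hp⟩
    obtain ⟨hp2, hd1⟩ := two_ne p hp d hpd
    have hd' : (d : ZMod p) ≠ 0 := fun h0 => hd1 ((ZMod.intCast_zmod_eq_zero_iff_dvd _ _).mp h0)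
    refine ⟨(d : ZMod p) ^ (p / 2) * h7 p, HWm_eq p hp2 d, ?_⟩
    rw [card_Sol7 p hp2 d hd']
    ring
  · refine liminf_pos (fun p => IsUnit (HWm p d)) (remove_finite OrdP
      (fun p => IsUnit (HWm p d)) (2 * d.natAbs) ?_ ?_
      (sv_log H809.OD.theta_holds Run7.h709.OD.main_holds))
    · exact mul_ne_zero two_ne_zero (Int.natAbs_ne_zero.mpr hd)
    · intro p hp hpd hP
      have hF : Fact p.Prime := ⟨hp⟩
      have hpd' : ¬ (p : ℤ) ∣ 2 * d := by
        intro h0
        apply hpd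
        have := Int.natCast_dvd.mp h0
        rwa [Int.natAbs_mul] at this
      obtain ⟨hp2, hd1⟩ := two_ne p hp d hpd'
      have hd' : (d : ZMod p) ≠ 0 := fun h0 => hd1 ((ZMod.intCast_zmod_eq_zero_iff_dvd _ _).mp h0)
      obtain ⟨hp', h1⟩ := hP
      show IsUnit (HWm p d)
      rw [HWm_eq p hp2 d]
      have h2 : IsUnit ((d : ZMod p) ^ (p / 2) * h7 p) :=
        isUnit_iff_ne_zero.2 (mul_ne_zero (pow_ne_zero _ hd') h1)
      obtain ⟨v, hv⟩ := h2
      rw [← hv]
      exact IsUnit.smul v isUnit_one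

end Run7.h709.SV
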