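import Pool.Agent.Run7.h594.CY.Fin
import Pool.Agent.Run7.h594.CY.FiveFin

/-!
# The sevenfold `d v² = ∏_{i < 6} y_i (y_i - z) (y_i - s)`: symmetries of `H(s)^6`
-/

set_option autoImplicit false

namespace Run7.h709.SV

open Polynomial H594.CY

variable (p : ℕ) [hp : Fact p.Prime]

lemma LL_symm' (s : ZMod p) : LL p s = (-1) ^ (p / 2) * LL p (1 - s) := by
  rw [LL, LL, Finset.mul_sum]
  refine Fintype.sum_equiv (Equiv.subLeft 1) _ _ fun y => ?_
  rw [Equiv.subLeft_apply, ← mul_pow]
  congr 1
  ring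

lemma HH_comp (hp2 : p ≠ 2) : (HH p).comp (1 - X) = C ((-1) ^ (p / 2)) * HH p := by
  have hn := two_half p hp2
  have hp3 : 3 ≤ p := by have := hp.out.two_le; omega
  have h1 : (HH p).comp (1 - X) - C ((-1) ^ (p / 2)) * HH p = 0 := by
    refine Polynomial.eq_zero_of_natDegree_lt_card_of_eval_eq_zero _
      (f := fun x : ZMod p => x) (fun a b h => h) (fun s => ?_) ?_
    · have e1 := LL_eq p hp2 s
      have e2 := LL_eq p hp2 (1 - s)
      have e3 := LL_symm' p s
      rw [e1, e2] at e3
      have e4 : ((-1 : ZMod p) ^ (p / 2)) * (-1) ^ (p / 2) = 1 := by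
        rw [← mul_pow]; norm_num
      simp only [eval_sub, eval_comp, eval_mul, eval_C, eval_one, eval_X]
      linear_combination e3 - (HH p).eval (1 - s) * e4
    · rw [ZMod.card]
      refine lt_of_le_of_lt (natDegree_sub_le _ _) (max_lt ?_ ?_)
      · refine lt_of_le_of_lt natDegree_comp_le ?_
        have h2 : (1 - X : (ZMod p)[X]).natDegree ≤ 1 := by compute_degree
        calc (HH p).natDegree * (1 - X : (ZMod p)[X]).natDegree ≤ (p / 2) * 1 :=
              Nat.mul_le_mul (HH_deg p) h2
          _ < p := by omega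
      · refine lt_of_le_of_lt (natDegree_C_mul_le _ _) ?_
        have := HH_deg p
        omega
  exact sub_eq_zero.1 h1

lemma HH_coeff (k : ℕ) (hk : k ≤ p / 2) : (HH p).coeff k = (Nat.choose (p / 2) k : ZMod p) ^ 2 := by
  rw [HH, finsetSum_coeff]
  simp only [coeff_C_mul_X_pow]
  rw [Finset.sum_ite_eq, if_pos (Finset.mem_range.mpr (by omega))]

lemma HH_reflect : reflect (p / 2) (HH p) = HH p := by
  ext k
  rw [coeff_reflect]
  rcases Nat.lt_or_ge (p / 2) k with h | h
  · rw [revAt_eq_self_of_lt h]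
  · rw [revAt_le h, HH_coeff p k h, HH_coeff p (p / 2 - k) (by omega), Nat.choose_symm h]

/-- `Y = H^6` -/
noncomputable def YS : (ZMod p)[X] := (HH p) ^ 6

lemma YS_deg (hp2 : p ≠ 2) : (YS p).natDegree ≤ 3 * (p - 1) := by
  have := natDegree_pow_le_of_le 6 (HH_deg p)
  have := two_half p hp2
  rw [YS]
  omega

lemma YS_top (hp2 : p ≠ 2) : (YS p).coeff (3 * (p - 1)) = 1 := by
  have hn := two_half p hp2
  rw [YS, ← hn, show 3 * (2 * (p / 2)) = 6 * (p / 2) by ring,
    coeff_pow_of_natDegree_le (HH_deg p), HH_top, one_pow]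

lemma reflect_pow (f : (ZMod p)[X]) (n : ℕ) (hf : f.natDegree ≤ n) (hr : reflect n f = f) (k : ℕ) :
    reflect (k * n) (f ^ k) = f ^ k := by
  induction k with
  | zero => simp
  | succ k ih =>
    rw [pow_succ, add_mul, one_mul, reflect_mul _ _ (natDegree_pow_le_of_le k hf) hf, ih, hr]

lemma YS_pal (hp2 : p ≠ 2) (k : ℕ) (hk : k ≤ 3 * (p - 1)) :
    (YS p).coeff (3 * (p - 1) - k) = (YS p).coeff k := by
  have hn := two_half p hp2
  have h1 := reflect_pow p (HH p) (p / 2) (HH_deg p) (HH_reflect p) 6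
  have h2 : 6 * (p / 2) = 3 * (p - 1) := by omega
  rw [h2] at h1
  have h3 := congrArg (fun f => f.coeff k) h1
  simp only [coeff_reflect, revAt_le hk] at h3
  exact h3

lemma YS_comp (hp2 : p ≠ 2) : (YS p).comp (1 - X) = YS p := by
  rw [YS, pow_comp, HH_comp p hp2, mul_pow, ← C_pow, ← pow_mul, mul_comm (p / 2) 6, pow_mul]
  norm_num

lemma iter_comp (f : (ZMod p)[X]) (k : ℕ) :
    derivative^[k] (f.comp (1 - X)) = (-1) ^ k * (derivative^[k] f).comp (1 - X) := by
  induction k with
  | zero => simp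
  | succ k ih =>
    rw [Function.iterate_succ_apply', Function.iterate_succ_apply', ih]
    have h1 : derivative ((-1 : (ZMod p)[X]) ^ k) = 0 := by
      rw [derivative_pow]
      simp
    rw [derivative_mul, h1, derivative_comp]
    simp only [derivative_sub, derivative_one, derivative_X]
    ring

/-- the middle coefficients vanish -/
theorem YS_zero (hp2 : p ≠ 2) : (YS p).coeff (2 * p - 1) = 0 := by
  have hp3 : 3 ≤ p := by have := hp.out.two_le; omega
  have hodd : Odd p := hp.out.odd_of_ne_two hp2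
  set W := derivative^[p - 1] (YS p) with hW
  have hWc : W.comp (1 - X) = W := by
    have h1 := iter_comp p (YS p) (p - 1)
    rw [YS_comp p hp2] at h1
    have h2 : Even (p - 1) := Nat.Odd.sub_odd hodd odd_one
    rw [h2.neg_one_pow, one_mul] at h1
    rw [hW, ← h1]
  have hWz : ∀ m, ¬ p ∣ m → W.coeff m = 0 := by
    intro m hm
    rw [hW, coeff_iterate_derivative, nsmul_eq_mul]
    have h1 : (((m + (p - 1)).descFactorial (p - 1) : ℕ) : ZMod p) = 0 := by
      rw [ZMod.natCast_eq_zero_iff]
      -- one of `m + 1, ..., m + p - 1` is divisible by `p`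
      obtain ⟨j, hj1, hj2, hj⟩ : ∃ j, 1 ≤ j ∧ j ≤ p - 1 ∧ p ∣ m + j := by
        refine ⟨p - m % p, ?_, ?_, ?_⟩
        · have := Nat.mod_lt m hp.out.pos
          omega
        · have : m % p ≠ 0 := fun h0 => hm (Nat.dvd_of_mod_eq_zero h0)
          omega
        · have h3 := Nat.div_add_mod m p
          have h4 := Nat.mod_lt m hp.out.pos
          refine ⟨m / p + 1, ?_⟩
          rw [mul_add, mul_one]
          omega
      rw [Nat.descFactorial_eq_prod_range]
      refine hj.trans ?_
      have h5 : m + j = m + (p - 1) - (p - 1 - j) := by omega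
      rw [h5]
      exact Finset.dvd_prod_of_mem (fun i => m + (p - 1) - i) (Finset.mem_range.2 (by omega))
    rw [h1, zero_mul]
  have hWd : ∀ m, 2 * p ≤ m → W.coeff m = 0 := by
    intro m hm
    rw [hW, coeff_iterate_derivative, nsmul_eq_mul]
    have h1 : (YS p).coeff (m + (p - 1)) = 0 := by
      refine coeff_eq_zero_of_natDegree_lt (lt_of_le_of_lt (YS_deg p hp2) ?_)
      omega
    rw [h1, mul_zero]
  have hWe : W = C (W.coeff 0) + C (W.coeff p) * X ^ p := by
    ext m
    rw [coeff_add, coeff_C, coeff_C_mul, coeff_X_pow]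
    by_cases h0 : m = 0
    · subst h0
      rw [if_pos rfl, if_neg (by omega)]
      ring
    by_cases h1 : m = p
    · subst h1
      rw [if_neg h0, if_pos rfl]
      ring
    rw [if_neg h0, if_neg h1]
    have : W.coeff m = 0 := by
      by_cases h2 : p ∣ m
      · obtain ⟨c, rfl⟩ := h2
        have hc : 2 ≤ c := by
          have hc0 : c ≠ 0 := fun h => h0 (by rw [h, mul_zero])
          have hc1 : c ≠ 1 := fun h => h1 (by rw [h, mul_one])
          omega
        exact hWd _ (by rw [mul_comm]; exact Nat.mul_le_mul_left _ hc)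
      · exact hWz m h2
    rw [this]
    ring
  have h3 : W.comp (1 - X) = C (W.coeff 0) + C (W.coeff p) * (1 - X ^ p) := by
    conv_lhs => rw [hWe]
    rw [add_comp, mul_comp, C_comp, C_comp, pow_comp, X_comp, sub_pow_char]
    simp
  have h4 : W.coeff p = - W.coeff p := by
    have h5 := congrArg (fun f => f.coeff p) (hWc.symm.trans h3)
    simp only [coeff_add, coeff_C, coeff_C_mul, coeff_sub, coeff_one, coeff_X_pow] at h5
    rw [if_neg hp.out.ne_zero, if_neg hp.out.ne_zero, if_pos trivial] at h5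
    linear_combination h5
  have h6 : W.coeff p = 0 := by
    have h7 : (2 : ZMod p) ≠ 0 := by
      intro h0
      have h5 : ((2 : ℕ) : ZMod p) = 0 := by exact_mod_cast h0
      rw [ZMod.natCast_eq_zero_iff] at h5
      exact hp2 ((Nat.prime_dvd_prime_iff_eq hp.out Nat.prime_two).mp h5)
    have h8 : 2 * W.coeff p = 0 := by linear_combination h4
    exact (mul_eq_zero.1 h8).resolve_left h7
  rw [hW, coeff_iterate_derivative, nsmul_eq_mul] at h6
  have h9 : p + (p - 1) = 2 * p - 1 := by omega
  rw [h9] at h6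
  refine (mul_eq_zero.1 h6).resolve_left ?_
  intro h0
  rw [ZMod.natCast_eq_zero_iff, Nat.descFactorial_eq_prod_range, Prime.dvd_finsetProd_iff
    (Nat.Prime.prime hp.out)] at h0
  obtain ⟨i, hi, hd⟩ := h0
  rw [Finset.mem_range] at hi
  obtain ⟨c, hc⟩ := hd
  have h10 : c = 0 ∨ c = 1 ∨ 2 ≤ c := by omega
  rcases h10 with rfl | rfl | h10
  · omega
  · omega
  · have := Nat.mul_le_mul_left p h10
    omega

end Run7.h709.SV
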